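import Mathlib
import Pool.Agent.H3.GSME

set_option autoImplicit false

namespace Pool.Agent.Results.MP_b15bac_al.InfinitePeriodicOrderFive

/-- There are an abelian group `A` and fixed-point-free automorphisms `α, β` of `A`, each of order
exactly `5`, such that the group `⟨α, β⟩` of automorphisms of `A` is periodic and infinite.
(`A ≃ₗ[ℤ] A` is the group of all automorphisms of the abelian group `A`, under composition.) -/
theorem result : ∃ (A : Type) (_ : AddCommGroup A) (α β : A ≃ₗ[ℤ] A),
    (∀ a : A, α a = a → a = 0) ∧ (∀ a : A, β a = a → a = 0) ∧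
    orderOf α = 5 ∧ orderOf β = 5 ∧
    (∀ g ∈ Subgroup.closure {α, β}, ∃ n : ℕ, 0 < n ∧ g ^ n = 1) ∧
    Infinite (Subgroup.closure {α, β}) := by
  obtain ⟨A, _, α, β, h1, h2, h3, h4, h5, h6⟩ := Pool.Agent.H3.GSM.main
  exact ⟨A, inferInstance, α, β, h1, h2, h3, h4,
    fun g hg => isOfFinOrder_iff_pow_eq_one.1 (h5 g hg), h6⟩

end Pool.Agent.Results.MP_b15bac_al.InfinitePeriodicOrderFive
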